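import Pool.Agent.W48.KS.Defs
import Pool.Agent.W338.GP.Site

/-!
# Spectral weights and principal minor
-/

set_option autoImplicit false

open Finset

namespace Pool.Agent.W417.KS

open Pool.Agent.W259.GP Pool.Agent.W48.KS Pool.Agent.W338.GP

/-- an orthogonal matrix with given first column -/
theorem exists_O (n : ℕ) (w : Fin (n + 1) → ℝ) (hw : ∀ j, 0 < w j) (hsum : ∑ j, w j = 1) :
    ∃ O : Fin (n + 1) → Fin (n + 1) → ℝ, IsOrth O ∧
      (∀ i l, ∑ j, O j i * O j l = if i = l then 1 else 0) ∧ ∀ j, O j 0 ^ 2 = w j := by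
  classical
  set v : Fin (n + 1) → EuclideanSpace ℝ (Fin (n + 1)) :=
    fun _ => WithLp.toLp 2 fun j => √(w j) with hv
  have hortho : Orthonormal ℝ (({(0 : Fin (n + 1))} : Set (Fin (n + 1))).domRestrict v) := by
    constructor
    · rintro ⟨i, hi⟩
      show ‖v i‖ = 1
      rw [hv, EuclideanSpace.norm_eq]
      have : ∑ x : Fin (n + 1), ‖(WithLp.toLp 2 fun j : Fin (n + 1) => √(w j) :
          EuclideanSpace ℝ (Fin (n + 1))) x‖ ^ 2 = 1 := by
        rw [← hsum]
        refine Finset.sum_congr rfl fun j _ => ?_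
        simp only [Real.norm_eq_abs, sq_abs]
        exact Real.sq_sqrt (hw j).le
      rw [this, Real.sqrt_one]
    · rintro ⟨i, hi⟩ ⟨j, hj⟩ hij
      rw [Set.mem_singleton_iff] at hi hj
      exact absurd (Subtype.ext (hi.trans hj.symm)) hij
  obtain ⟨b, hb⟩ := hortho.exists_orthonormalBasis_extension_of_card_eq (by simp)
  have h1 : ∀ i l, ∑ j, b i j * b l j = if i = l then (1 : ℝ) else 0 := by
    intro i l
    have h1 := orthonormal_iff_ite.mp b.orthonormal i l
    rw [← h1, PiLp.inner_apply]
    exact Finset.sum_congr rfl fun k _ => by simp [mul_comm]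
  set B : Matrix (Fin (n + 1)) (Fin (n + 1)) ℝ := Matrix.of (fun i j => b i j) with hB
  have hBB : B * B.transpose = 1 := by
    ext j k
    simp [Matrix.mul_apply, B, Matrix.one_apply, h1]
  have hBB' : B.transpose * B = 1 := mul_eq_one_comm.mp hBB
  refine ⟨fun j i => b i j, ?_, h1, ?_⟩
  · intro j l
    have := congrFun (congrFun hBB' j) l
    simpa [Matrix.mul_apply, B, Matrix.one_apply] using this
  · intro j
    have h2 := hb 0 (Set.mem_singleton _)
    have h3 : b 0 j = √(w j) := by rw [h2]
    show b 0 j ^ 2 = w j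
    rw [h3]
    exact Real.sq_sqrt (hw j).le

/-- `Oᵀ diag(q) O` -/
noncomputable def MM {m : ℕ} (O : Fin m → Fin m → ℝ) (q : Fin m → ℝ) : Matrix (Fin m) (Fin m) ℝ :=
  (Matrix.of O).transpose * Matrix.diagonal q * Matrix.of O

theorem MM_apply {m : ℕ} (O : Fin m → Fin m → ℝ) (q : Fin m → ℝ) (i l : Fin m) :
    MM O q i l = ∑ j, O j i * q j * O j l := by
  unfold MM
  rw [Matrix.mul_apply]
  refine Finset.sum_congr rfl fun j _ => ?_
  rw [Matrix.mul_diagonal]
  rfl

theorem OO {m : ℕ} {O : Fin m → Fin m → ℝ} (hO : IsOrth O) :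
    Matrix.of O * (Matrix.of O).transpose = 1 := by
  ext j k
  rw [Matrix.mul_apply, Matrix.one_apply, ← hO j k]
  rfl

theorem OO' {m : ℕ} {O : Fin m → Fin m → ℝ} (hO : IsOrth O) :
    (Matrix.of O).transpose * Matrix.of O = 1 := mul_eq_one_comm.mp (OO hO)

theorem det_MM {m : ℕ} {O : Fin m → Fin m → ℝ} (hO : IsOrth O) (q : Fin m → ℝ) :
    (MM O q).det = ∏ j, q j := by
  unfold MM
  rw [Matrix.det_mul, Matrix.det_mul, Matrix.det_diagonal]
  have h1 := congrArg Matrix.det (OO' hO)
  rw [Matrix.det_mul, Matrix.det_one] at h1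
  calc (Matrix.of O).transpose.det * (∏ j, q j) * (Matrix.of O).det =
      ((Matrix.of O).transpose.det * (Matrix.of O).det) * ∏ j, q j := by ring
    _ = _ := by rw [h1, one_mul]

theorem MM_mul {m : ℕ} {O : Fin m → Fin m → ℝ} (hO : IsOrth O) (q q' : Fin m → ℝ)
    (h : ∀ j, q j * q' j = 1) : MM O q * MM O q' = 1 := by
  unfold MM
  have h1 : Matrix.diagonal q * Matrix.diagonal q' = (1 : Matrix (Fin m) (Fin m) ℝ) := by
    rw [Matrix.diagonal_mul_diagonal, ← Matrix.diagonal_one]
    congr 1
    funext j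
    exact h j
  calc (Matrix.of O).transpose * Matrix.diagonal q * Matrix.of O *
        ((Matrix.of O).transpose * Matrix.diagonal q' * Matrix.of O) =
      (Matrix.of O).transpose * (Matrix.diagonal q * (Matrix.of O * (Matrix.of O).transpose) *
        Matrix.diagonal q') * Matrix.of O := by simp only [Matrix.mul_assoc]
    _ = (Matrix.of O).transpose * (Matrix.diagonal q * Matrix.diagonal q') * Matrix.of O := by
        rw [OO hO, Matrix.mul_one]
    _ = 1 := by rw [h1, Matrix.mul_one, OO' hO]

theorem MM_shift {m : ℕ} {O : Fin m → Fin m → ℝ}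
    (hO : ∀ i l, ∑ j, O j i * O j l = if i = l then 1 else 0) (c : Fin m → ℝ) (s : ℝ)
    (i l : Fin m) : MM O (fun j => 1 + 2 * c j - s) i l =
      (1 - s) * (if i = l then 1 else 0) + 2 * QM O c i l := by
  rw [MM_apply, ← hO i l]
  unfold QM
  rw [Finset.mul_sum, Finset.mul_sum, ← Finset.sum_add_distrib]
  refine Finset.sum_congr rfl fun j _ => ?_
  ring

theorem la : S_la := by
  classical
  intro n w c hw hsum hc
  obtain ⟨O, hO, hO2, hOw⟩ := exists_O n w hw hsum
  obtain ⟨o, κ, h1, h2, h3⟩ := exists_eig (fun i l : Fin n => QM O c i.succ l.succ) (by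
    intro i l
    unfold QM
    exact Finset.sum_congr rfl fun j _ => by ring)
  have h4 : ∀ i l : Fin n, QM O c i.succ l.succ = QM o κ i l := by
    intro i l
    have := quad_eq h2 h3 i l
    unfold QM at this ⊢
    rw [this]
    exact Finset.sum_congr rfl fun j _ => by ring
  have hκ : ∀ j, 0 < κ j := by
    intro j
    have e1 : κ j = ∑ k, c k * (∑ i : Fin n, O k i.succ * o j i) ^ 2 := by
      have e2 : κ j = ∑ i, o j i * (κ j * o j i) := by
        have := h1 j j
        rw [if_pos rfl] at this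
        calc κ j = κ j * ∑ i, o j i * o j i := by rw [this, mul_one]
          _ = _ := by
            rw [Finset.mul_sum]
            exact Finset.sum_congr rfl fun i _ => by ring
      rw [e2]
      have e3 : ∀ i, o j i * (κ j * o j i) = ∑ k, ∑ l, c k * ((O k i.succ * o j i) *
          (O k l.succ * o j l)) := by
        intro i
        rw [← h3 j i]
        unfold QM
        rw [Finset.mul_sum, Finset.sum_comm]
        refine Finset.sum_congr rfl fun l _ => ?_
        rw [Finset.sum_mul, Finset.mul_sum]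
        exact Finset.sum_congr rfl fun k _ => by ring
      simp_rw [e3]
      rw [Finset.sum_comm]
      refine Finset.sum_congr rfl fun k _ => ?_
      rw [sq, Finset.sum_mul_sum, Finset.mul_sum]
      refine Finset.sum_congr rfl fun i _ => ?_
      rw [Finset.mul_sum]
    have e2 : ∑ k, (∑ i : Fin n, O k i.succ * o j i) ^ 2 = 1 := by
      have e3 : ∀ k, (∑ i : Fin n, O k i.succ * o j i) ^ 2 =
          ∑ i : Fin n, ∑ l : Fin n, (O k i.succ * O k l.succ) * (o j i * o j l) := by
        intro k
        rw [sq, Finset.sum_mul_sum]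
        exact Finset.sum_congr rfl fun i _ => Finset.sum_congr rfl fun l _ => by ring
      simp_rw [e3]
      rw [Finset.sum_comm]
      have e4 : ∀ i : Fin n, ∑ k, ∑ l : Fin n, (O k i.succ * O k l.succ) * (o j i * o j l) =
          o j i * o j i := by
        intro i
        rw [Finset.sum_comm]
        simp_rw [← Finset.sum_mul, hO2, Fin.succ_inj]
        simp
      simp_rw [e4]
      have := h1 j j
      rwa [if_pos rfl] at this
    rw [e1]
    have e3 : ∃ k, (∑ i : Fin n, O k i.succ * o j i) ≠ 0 := by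
      by_contra hcon
      push Not at hcon
      simp [hcon] at e2
    obtain ⟨k, hk⟩ := e3
    refine Finset.sum_pos' (fun k _ => mul_nonneg (hc k).le (sq_nonneg _)) ⟨k, Finset.mem_univ _, ?_⟩
    exact mul_pos (hc k) (by positivity)
  refine ⟨O, o, κ, hO, fun j l => h1 j l, hκ, hOw, h4, ?_⟩
  intro s hs0 hs1
  set q : Fin (n + 1) → ℝ := fun j => 1 + 2 * c j - s with hq
  set q' : Fin n → ℝ := fun j => 1 + 2 * κ j - s with hq'
  have hqpos : ∀ j, 0 < q j := fun j => by
    have := hc j
    simp only [hq]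
    linarith
  have hsub : (MM O q).submatrix Fin.succ Fin.succ = MM o q' := by
    ext i l
    rw [Matrix.submatrix_apply, hq, hq', MM_shift hO2, MM_shift h2, h4]
    simp only [Fin.succ_inj]
  have hadj1 : (MM O q).adjugate 0 0 = ∏ i, q' i := by
    rw [Matrix.adjugate_fin_succ_eq_det_submatrix]
    have : (MM O q).submatrix (Fin.succAbove 0) (Fin.succAbove 0) = MM o q' := by
      rw [← hsub]
      rfl
    rw [this, det_MM (fun j l => h1 j l)]
    simp
  have hadj2 : (MM O q).adjugate = (∏ j, q j) • MM O (fun j => (q j)⁻¹) := by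
    have hm := MM_mul hO q (fun j => (q j)⁻¹) (fun j => mul_inv_cancel₀ (hqpos j).ne')
    calc (MM O q).adjugate = (MM O q).adjugate * (MM O q * MM O (fun j => (q j)⁻¹)) := by
          rw [hm, Matrix.mul_one]
      _ = ((MM O q).adjugate * MM O q) * MM O (fun j => (q j)⁻¹) := by rw [Matrix.mul_assoc]
      _ = _ := by
          rw [Matrix.adjugate_mul, det_MM hO, Matrix.smul_mul, Matrix.one_mul]
  have h5 := congrFun (congrFun hadj2 0) 0
  rw [hadj1, Matrix.smul_apply, MM_apply, smul_eq_mul] at h5
  rw [h5, mul_comm]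
  congr 1
  refine Finset.sum_congr rfl fun j _ => ?_
  rw [← hOw j, div_eq_mul_inv]
  simp only [hq]
  ring

end Pool.Agent.W417.KS
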